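import Mathlib

set_option autoImplicit false

/-!
# Theories of flips

Definitions for `MP_a06248_ag` (termination of flips).  The structure `FlipTheory n` collects the formal
properties of projective `ℚ`-Gorenstein terminal varieties of dimension `n` and of their flips which
relate points, exceptional valuations, discrepancies and the ranks of the groups of algebraic classes.
-/

universe u v w z

namespace Pool.Agent.A06248

/-- Discrepancy data of dimension `n`: a class of varieties with their points (irreducible closed
subsets), regular points, codimensions, exceptional divisorial valuations with their centres and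
discrepancies, and the ranks of the groups generated by the classes of the closed subvarieties. -/
structure DiscData (n : ℕ) where
  /-- the varieties -/
  Var : Type u
  /-- the points (of all codimensions) of a variety -/
  Pt : Var → Type v
  /-- the codimension of (the closure of) a point -/
  codim : ∀ {X : Var}, Pt X → ℕ
  /-- the regular points -/
  Reg : ∀ {X : Var}, Pt X → Prop
  /-- the exceptional divisorial valuations over a variety -/
  Val : Var → Type w
  /-- the centre of an exceptional valuation -/
  centre : ∀ {X : Var}, Val X → Pt X
  /-- the discrepancy -/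
  disc : ∀ {X : Var}, Val X → ℚ
  /-- the rank of the group generated by the classes of the subvarieties of codimension `k` -/
  rk : Var → ℕ → ℕ
  codim_le : ∀ {X : Var} (P : Pt X), codim P ≤ n

namespace DiscData

variable {n : ℕ}

/-- Regular points: the discrepancy of a valuation with centre `P` regular is at least
`codim P - 1`, and the blowing up of `P` has discrepancy `codim P - 1`. -/
def AxRegular (D : DiscData.{u, v, w} n) : Prop :=
  ∀ X : D.Var, (∀ E : D.Val X, D.Reg (D.centre E) → (D.codim (D.centre E) : ℚ) - 1 ≤ D.disc E) ∧
    ∀ P : D.Pt X, D.Reg P → 2 ≤ D.codim P → ∃ E : D.Val X, D.centre E = P ∧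
      D.disc E = (D.codim P : ℚ) - 1

/-- Resolution of singularities: there are finitely many valuations (the exceptional divisors of
a log resolution which is an isomorphism over the regular points) such that every other valuation with
singular centre has discrepancy at least `1 + disc F` for one of them, `F`, with singular centre. -/
def AxResolution (D : DiscData.{u, v, w} n) : Prop :=
  ∀ X : D.Var, ∃ R : Set (D.Val X), R.Finite ∧ ∀ E : D.Val X, E ∉ R → ¬ D.Reg (D.centre E) →
    ∃ F ∈ R, ¬ D.Reg (D.centre F) ∧ 1 + D.disc F ≤ D.disc E

/-- Terminal singularities in codimension at most three: if a point of codimension at most three is not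
regular, then there is a valuation with this centre and discrepancy at most one. -/
def AxCodimThree (D : DiscData.{u, v, w} n) : Prop :=
  ∀ (X : D.Var) (P : D.Pt X), ¬ D.Reg P → D.codim P ≤ 3 → ∃ E : D.Val X, D.centre E = P ∧
    D.disc E ≤ 1

end DiscData

/-- A flip `X ⇢ X⁺` over discrepancy data: the flipping locus in `X`, the flipped locus in `X⁺`, and the
identification of the exceptional valuations over `X` and `X⁺`. -/
structure Flip {n : ℕ} (D : DiscData.{u, v, w} n) (X Y : D.Var) where
  /-- the flipping locus -/
  Exc : Set (D.Pt X)
  /-- the flipped locus -/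
  Exc' : Set (D.Pt Y)
  /-- the identification of the exceptional valuations -/
  tr : D.Val X ≃ D.Val Y

namespace Flip

variable {n : ℕ} {D : DiscData.{u, v, w} n} {X Y : D.Var}

/-- The contractions are small. -/
def Small (f : Flip D X Y) : Prop :=
  (∀ P ∈ f.Exc, 2 ≤ D.codim P) ∧ ∀ P ∈ f.Exc', 2 ≤ D.codim P

/-- The flip is an isomorphism outside the flipping locus and the flipped locus. -/
def IsoOutside (f : Flip D X Y) : Prop :=
  (∀ E : D.Val X, D.centre E ∈ f.Exc ↔ D.centre (f.tr E) ∈ f.Exc') ∧
    ∀ E : D.Val X, D.centre E ∉ f.Exc → D.codim (D.centre (f.tr E)) = D.codim (D.centre E) ∧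
      (D.Reg (D.centre (f.tr E)) ↔ D.Reg (D.centre E))

/-- Discrepancies do not go down, and go up if the centre is in the flipping locus. -/
def Increasing (f : Flip D X Y) : Prop :=
  (∀ E : D.Val X, D.disc E ≤ D.disc (f.tr E)) ∧
    ∀ E : D.Val X, D.centre E ∈ f.Exc → D.disc E < D.disc (f.tr E)

/-- The dimensions of the flipping locus and of the flipped locus have sum at least `n - 1`. -/
def DimIneq (f : Flip D X Y) : Prop :=
  ∃ P ∈ f.Exc, ∃ Q ∈ f.Exc', D.codim P + D.codim Q ≤ n + 1

/-- If the flipped locus has codimension greater than `k`, the rank of the group of classes of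
codimension `k` does not go up, and it goes down if there is a subvariety of codimension `k` in the
flipping locus. -/
def RankDrop (f : Flip D X Y) : Prop :=
  ∀ k : ℕ, (∀ Q ∈ f.Exc', k < D.codim Q) → D.rk Y k ≤ D.rk X k ∧
    ((∃ P ∈ f.Exc, D.codim P = k) → D.rk Y k < D.rk X k)

/-- The properties of the flip of a contraction of a `K_X`-negative extremal ray. -/
structure IsFlip (f : Flip D X Y) : Prop where
  small : f.Small
  iso : f.IsoOutside
  incr : f.Increasing
  dim : f.DimIneq
  rank : f.RankDrop

end Flip

/-- A theory of flips of dimension `n`: discrepancy data with regular points and resolutions. -/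
structure FlipTheory (n : ℕ) extends DiscData.{u, v, w} n where
  regular : toDiscData.AxRegular
  resolution : toDiscData.AxResolution

/-- A sequence of flips `X₀ ⇢ X₁ ⇢ X₂ ⇢ ⋯` (infinite). -/
structure FlipSeq {n : ℕ} (T : FlipTheory.{u, v, w} n) where
  /-- the varieties -/
  X : ℕ → T.Var
  /-- the flips -/
  f : ∀ i : ℕ, Flip T.toDiscData (X i) (X (i + 1))
  isFlip : ∀ i : ℕ, (f i).IsFlip

end Pool.Agent.A06248
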