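import Pool.Agent.W_MP_a06248_h67.Defs

set_option autoImplicit false

/-! Termination of flips: the difficulty argument in all codimensions. -/

universe u v w

namespace Pool.Agent.A06248

theorem eventually_const (g : ℕ → ℕ) (N : ℕ) (h : ∀ i, N ≤ i → g (i + 1) ≤ g i) :
    ∃ M, N ≤ M ∧ ∀ i, M ≤ i → g (i + 1) = g i := by
  have hanti : ∀ k, g (N + k + 1) ≤ g (N + k) := fun k => h _ (Nat.le_add_right _ _)
  let a : ℕ →o ℕᵒᵈ := ⟨fun k => OrderDual.toDual (g (N + k)),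
    monotone_nat_of_le_succ (fun k => hanti k)⟩
  obtain ⟨m, hm⟩ := WellFoundedGT.monotone_chain_condition a
  refine ⟨N + m, Nat.le_add_right _ _, fun i hi => ?_⟩
  obtain ⟨d, rfl⟩ := Nat.exists_eq_add_of_le hi
  have h1 : g (N + m) = g (N + (m + d)) := hm (m + d) (Nat.le_add_right _ _)
  have h2 : g (N + m) = g (N + (m + (d + 1))) := hm (m + (d + 1)) (Nat.le_add_right _ _)
  rw [show N + m + d + 1 = N + (m + (d + 1)) by ring, show N + m + d = N + (m + d) by ring, ← h1, ← h2]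

variable {n : ℕ} {T : FlipTheory.{u, v, w} n}

/-- `c - 1 ≤ disc E` for all valuations with singular centre. -/
def SingDisc (c : ℕ) (X : T.Var) : Prop :=
  ∀ E : T.Val X, ¬ T.Reg (T.centre E) → (c : ℚ) - 1 ≤ T.disc E

/-- The valuations with singular centre and discrepancy less than `c`. -/
def bad (c : ℕ) (X : T.Var) : Set (T.Val X) :=
  {E | ¬ T.Reg (T.centre E) ∧ T.disc E < c}

theorem bad_finite (c : ℕ) (X : T.Var) (h : SingDisc c X) : (bad c X).Finite := by
  obtain ⟨R, hR, h1⟩ := T.resolution X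
  refine hR.subset fun E hE => ?_
  by_contra hER
  obtain ⟨F, hF, hFs, hFE⟩ := h1 E hER hE.1
  have := h F hFs
  have := hE.2
  linarith

section Step

variable {X Y : T.Var} (f : Flip T.toDiscData X Y) (hf : f.IsFlip)

include hf

/-- A flipped point of codimension `j`, regular, gives a valuation with singular centre. -/
theorem exists_sing (j : ℕ) (hj : 2 ≤ j) (hE : ∀ P ∈ f.Exc, j ≤ T.codim P) (Q : T.Pt Y)
    (hQ : Q ∈ f.Exc') (hQj : T.codim Q = j) (hreg : T.Reg Q) :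
    ∃ E : T.Val X, T.centre E ∈ f.Exc ∧ ¬ T.Reg (T.centre E) ∧ T.disc E < (j : ℚ) - 1 ∧
      T.disc (f.tr E) = (j : ℚ) - 1 := by
  obtain ⟨E', hE', hd⟩ := (T.regular Y).2 Q hreg (by rw [hQj]; exact hj)
  have h0 : f.tr (f.tr.symm E') = E' := f.tr.apply_symm_apply E'
  have hc : T.centre (f.tr.symm E') ∈ f.Exc := by
    rw [hf.iso.1, h0, hE']
    exact hQ
  have hd' : T.disc (f.tr (f.tr.symm E')) = (j : ℚ) - 1 := by rw [h0, hd, hQj]
  have hlt := hf.incr.2 _ hc
  rw [hd'] at hlt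
  refine ⟨f.tr.symm E', hc, ?_, hlt, hd'⟩
  intro hr
  have h1 := (T.regular X).1 _ hr
  have h2 : (j : ℚ) ≤ T.codim (T.centre (f.tr.symm E')) := by exact_mod_cast hE _ hc
  linarith

theorem bad_mono (c : ℕ) (hE : ∀ P ∈ f.Exc, c + 1 ≤ T.codim P) :
    f.tr.symm '' bad c Y ⊆ bad c X := by
  rintro _ ⟨E', hE', rfl⟩
  have h0 : f.tr (f.tr.symm E') = E' := f.tr.apply_symm_apply E'
  have hd : T.disc (f.tr.symm E') < c := by
    refine lt_of_le_of_lt ?_ hE'.2
    have := hf.incr.1 (f.tr.symm E')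
    rwa [h0] at this
  refine ⟨?_, hd⟩
  by_cases hc : T.centre (f.tr.symm E') ∈ f.Exc
  · intro hr
    have h1 := (T.regular X).1 _ hr
    have h2 : ((c + 1 : ℕ) : ℚ) ≤ T.codim (T.centre (f.tr.symm E')) := by exact_mod_cast hE _ hc
    push_cast at h2
    linarith
  · have := (hf.iso.2 _ hc).2
    rw [h0] at this
    rw [← this]
    exact hE'.1

theorem bad_card (c : ℕ) (hX : SingDisc c X) (hE : ∀ P ∈ f.Exc, c + 1 ≤ T.codim P) :
    (bad c Y).ncard ≤ (bad c X).ncard := by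
  rw [← Set.ncard_image_of_injective (bad c Y) f.tr.symm.injective]
  exact Set.ncard_le_ncard (bad_mono f hf c hE) (bad_finite c X hX)

theorem bad_card_lt (c : ℕ) (hc : 1 ≤ c) (hX : SingDisc c X) (hE : ∀ P ∈ f.Exc, c + 1 ≤ T.codim P)
    (Q : T.Pt Y) (hQ : Q ∈ f.Exc') (hQj : T.codim Q = c + 1) (hreg : T.Reg Q) :
    (bad c Y).ncard < (bad c X).ncard := by
  rw [← Set.ncard_image_of_injective (bad c Y) f.tr.symm.injective]
  refine Set.ncard_lt_ncard ?_ (bad_finite c X hX)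
  refine ⟨bad_mono f hf c hE, fun hsub => ?_⟩
  obtain ⟨E, hE1, hE2, hE3, hE4⟩ := exists_sing f hf (c + 1) (by omega) hE Q hQ hQj hreg
  push_cast at hE3 hE4
  obtain ⟨E', hE', hEE'⟩ := hsub (show E ∈ bad c X from ⟨hE2, by linarith⟩)
  have : f.tr E = E' := by rw [← hEE']; exact f.tr.apply_symm_apply E'
  have h1 := hE'.2
  rw [← this, hE4] at h1
  linarith

end Step

/-- The main induction. -/
theorem codim_grows (S : FlipSeq T) (c : ℕ) (hc : 1 ≤ c)
    (hsing : ∀ i, SingDisc c (S.X i))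
    (hreg : ∀ i, ∀ Q ∈ (S.f i).Exc', T.codim Q ≤ c + 1 → T.Reg Q) :
    ∀ j, j ≤ c + 2 → ∃ N, ∀ i, N ≤ i → (∀ P ∈ (S.f i).Exc, j ≤ T.codim P) ∧
      ∀ Q ∈ (S.f i).Exc', j ≤ T.codim Q := by
  intro j
  induction j with
  | zero => exact fun _ => ⟨0, fun i _ => ⟨fun _ _ => Nat.zero_le _, fun _ _ => Nat.zero_le _⟩⟩
  | succ j ih =>
    intro hj
    by_cases hj2 : j + 1 ≤ 2
    · exact ⟨0, fun i _ => ⟨fun P hP => hj2.trans ((S.isFlip i).small.1 P hP),
        fun Q hQ => hj2.trans ((S.isFlip i).small.2 Q hQ)⟩⟩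
    have hj2' : 2 ≤ j := by omega
    obtain ⟨N, hN⟩ := ih (by omega)
    -- the flipped locus
    have hA : ∃ N', N ≤ N' ∧ ∀ i, N' ≤ i → ∀ Q ∈ (S.f i).Exc', j + 1 ≤ T.codim Q := by
      by_cases hjc : j ≤ c
      · refine ⟨N, le_rfl, fun i hi Q hQ => ?_⟩
        by_contra hlt
        have hQj : T.codim Q = j := by
          have := (hN i hi).2 Q hQ
          omega
        obtain ⟨E, hE1, hE2, hE3, _⟩ := exists_sing (S.f i) (S.isFlip i) j hj2' (hN i hi).1 Q hQ hQj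
          (hreg i Q hQ (by omega))
        have h1 := hsing i E hE2
        have h2 : (j : ℚ) ≤ c := by exact_mod_cast hjc
        linarith
      · have hjc' : j = c + 1 := by omega
        subst hjc'
        obtain ⟨M, hNM, hM⟩ := eventually_const (fun i => (bad c (S.X i)).ncard) N
          (fun i hi => bad_card (S.f i) (S.isFlip i) c (hsing i) (hN i hi).1)
        refine ⟨M, hNM, fun i hi Q hQ => ?_⟩
        by_contra hlt
        have hQj : T.codim Q = c + 1 := by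
          have := (hN i (hNM.trans hi)).2 Q hQ
          omega
        have h1 := bad_card_lt (S.f i) (S.isFlip i) c hc (hsing i) (hN i (hNM.trans hi)).1 Q hQ hQj
          (hreg i Q hQ (by omega))
        have h2 := hM i hi
        omega
    obtain ⟨N', hNN', hN'⟩ := hA
    obtain ⟨M, hNM, hM⟩ := eventually_const (fun i => T.rk (S.X i) j) N'
      (fun i hi => ((S.isFlip i).rank j (fun Q hQ => hN' i hi Q hQ)).1)
    refine ⟨M, fun i hi => ⟨fun P hP => ?_, hN' i (hNM.trans hi)⟩⟩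
    by_contra hlt
    have hPj : T.codim P = j := by
      have := (hN i (hNN'.trans (hNM.trans hi))).1 P hP
      omega
    have h1 := ((S.isFlip i).rank j (fun Q hQ => hN' i (hNM.trans hi) Q hQ)).2 ⟨P, hP, hPj⟩
    have h2 := hM i hi
    omega

/-- The general theorem. -/
theorem main (S : FlipSeq T) (c : ℕ) (hc : 1 ≤ c)
    (hsing : ∀ i, SingDisc c (S.X i))
    (hreg : ∀ i, ∀ Q ∈ (S.f i).Exc', T.codim Q ≤ c + 1 → T.Reg Q) :
    (∃ N, ∀ i, N ≤ i → (∀ P ∈ (S.f i).Exc, c + 2 ≤ T.codim P) ∧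
      ∀ Q ∈ (S.f i).Exc', c + 2 ≤ T.codim Q) ∧ 2 * c + 3 ≤ n := by
  have h := codim_grows S c hc hsing hreg (c + 2) le_rfl
  refine ⟨h, ?_⟩
  obtain ⟨N, hN⟩ := h
  obtain ⟨P, hP, Q, hQ, hPQ⟩ := (S.isFlip N).dim
  have h1 := (hN N le_rfl).1 P hP
  have h2 := (hN N le_rfl).2 Q hQ
  omega

/-- Discrepancies over `X_i` are bounded below by those over `X_0`. -/
theorem disc_ge (S : FlipSeq T) (t : ℚ) (h : ∀ E : T.Val (S.X 0), t ≤ T.disc E) :
    ∀ i, ∀ E : T.Val (S.X i), t ≤ T.disc E := by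
  intro i
  induction i with
  | zero => exact h
  | succ i ih =>
    intro E
    have h1 := (S.isFlip i).incr.1 ((S.f i).tr.symm E)
    rw [(S.f i).tr.apply_symm_apply] at h1
    exact (ih _).trans h1

/-- Varieties with discrepancies at least one. -/
theorem main_one (S : FlipSeq T) (h3 : T.AxCodimThree) (h : ∀ E : T.Val (S.X 0), 1 ≤ T.disc E) :
    (∃ N, ∀ i, N ≤ i → (∀ P ∈ (S.f i).Exc, 4 ≤ T.codim P) ∧
      ∀ Q ∈ (S.f i).Exc', 4 ≤ T.codim Q) ∧ 7 ≤ n := by
  have h1 := disc_ge S 1 h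
  refine main S 2 (by norm_num) (fun i E _ => ?_) (fun i Q hQ hQ3 => ?_)
  · have := h1 i E
    push_cast
    linarith
  · by_contra hr
    obtain ⟨E, hE, hd⟩ := h3 _ Q hr hQ3
    have h0 : (S.f i).tr ((S.f i).tr.symm E) = E := (S.f i).tr.apply_symm_apply E
    have hc : T.centre ((S.f i).tr.symm E) ∈ (S.f i).Exc := by
      rw [(S.isFlip i).iso.1, h0, hE]
      exact hQ
    have h2 := (S.isFlip i).incr.2 _ hc
    rw [h0] at h2
    have h4 := h1 i ((S.f i).tr.symm E)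
    linarith

end Pool.Agent.A06248
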